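import Mathlib

/-!
Theorem G (MP_c93117_an): sub-idempotent kernels with almost contractive rows.
`p : K → K → ℝ≥0∞`, `p t s ≤ ∑ r, p t r * p r s`, `∑ s, p t s ≤ 1 + e`.
-/

open scoped ENNReal
open Classical

namespace C93117G

universe u
variable {K : Type u}

/-- row mass -/
noncomputable def m (p : K → K → ℝ≥0∞) (t : K) : ℝ≥0∞ := ∑' s, p t s

/-- two step kernel -/
noncomputable def q (p : K → K → ℝ≥0∞) (t s : K) : ℝ≥0∞ := ∑' r, p t r * p r s

/-- (unnormalised) measure of an event of one-step paths `t → r → s`. -/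
noncomputable def W (p : K → K → ℝ≥0∞) (t : K) (E : K → K → Prop) : ℝ≥0∞ :=
  ∑' r, ∑' s, if E r s then p t r * p r s else 0

/-- (unnormalised) measure of an event of two-step paths `t → r₁ → r₂ → s`. -/
noncomputable def W2 (p : K → K → ℝ≥0∞) (t : K) (E : K → K → K → Prop) : ℝ≥0∞ :=
  ∑' r₁, ∑' r₂, ∑' s, if E r₁ r₂ s then p t r₁ * p r₁ r₂ * p r₂ s else 0

variable {p : K → K → ℝ≥0∞} {t : K}

lemma W_mono {E F : K → K → Prop} (h : ∀ r s, E r s → F r s) : W p t E ≤ W p t F := by
  unfold W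
  refine ENNReal.tsum_le_tsum fun r => ENNReal.tsum_le_tsum fun s => ?_
  by_cases hE : E r s
  · simp [hE, h r s hE]
  · simp [hE]

lemma W2_mono {E F : K → K → K → Prop} (h : ∀ r₁ r₂ s, E r₁ r₂ s → F r₁ r₂ s) :
    W2 p t E ≤ W2 p t F := by
  unfold W2
  refine ENNReal.tsum_le_tsum fun r => ENNReal.tsum_le_tsum fun r' =>
    ENNReal.tsum_le_tsum fun s => ?_
  by_cases hE : E r r' s
  · simp [hE, h r r' s hE]
  · simp [hE]

lemma W_or {E F : K → K → Prop} : W p t (fun r s => E r s ∨ F r s) ≤ W p t E + W p t F := by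
  unfold W
  rw [← ENNReal.tsum_add]
  refine ENNReal.tsum_le_tsum fun r => ?_
  rw [← ENNReal.tsum_add]
  refine ENNReal.tsum_le_tsum fun s => ?_
  by_cases hE : E r s <;> by_cases hF : F r s <;> simp [hE, hF]

lemma W2_or {E F : K → K → K → Prop} :
    W2 p t (fun r₁ r₂ s => E r₁ r₂ s ∨ F r₁ r₂ s) ≤ W2 p t E + W2 p t F := by
  unfold W2
  rw [← ENNReal.tsum_add]
  refine ENNReal.tsum_le_tsum fun r => ?_
  rw [← ENNReal.tsum_add]
  refine ENNReal.tsum_le_tsum fun r' => ?_
  rw [← ENNReal.tsum_add]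
  refine ENNReal.tsum_le_tsum fun s => ?_
  by_cases hE : E r r' s <;> by_cases hF : F r r' s <;> simp [hE, hF]

lemma W_split (E F : K → K → Prop) :
    W p t E = W p t (fun r s => E r s ∧ F r s) + W p t (fun r s => E r s ∧ ¬ F r s) := by
  unfold W
  rw [← ENNReal.tsum_add]
  refine tsum_congr fun r => ?_
  rw [← ENNReal.tsum_add]
  refine tsum_congr fun s => ?_
  by_cases hE : E r s <;> by_cases hF : F r s <;> simp [hE, hF]

lemma W2_split (E F : K → K → K → Prop) :
    W2 p t E = W2 p t (fun r₁ r₂ s => E r₁ r₂ s ∧ F r₁ r₂ s)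
      + W2 p t (fun r₁ r₂ s => E r₁ r₂ s ∧ ¬ F r₁ r₂ s) := by
  unfold W2
  rw [← ENNReal.tsum_add]
  refine tsum_congr fun r => ?_
  rw [← ENNReal.tsum_add]
  refine tsum_congr fun r' => ?_
  rw [← ENNReal.tsum_add]
  refine tsum_congr fun s => ?_
  by_cases hE : E r r' s <;> by_cases hF : F r r' s <;> simp [hE, hF]

lemma W2_first (E : K → K → Prop) :
    W2 p t (fun r₁ _ s => E r₁ s) = ∑' r, p t r * ∑' s, if E r s then q p r s else 0 := by
  unfold W2
  refine tsum_congr fun r => ?_
  rw [ENNReal.tsum_comm, ← ENNReal.tsum_mul_left]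
  refine tsum_congr fun s => ?_
  by_cases hE : E r s
  · simp only [hE, if_true, q]
    rw [← ENNReal.tsum_mul_left]
    exact tsum_congr fun r' => by ring
  · simp [hE]

lemma W_eq (E : K → K → Prop) :
    W p t E = ∑' r, p t r * ∑' s, if E r s then p r s else 0 := by
  unfold W
  refine tsum_congr fun r => ?_
  rw [← ENNReal.tsum_mul_left]
  refine tsum_congr fun s => ?_
  by_cases hE : E r s <;> simp [hE]

lemma W2_eq (F : K → K → K → Prop) :
    W2 p t F = ∑' r, p t r * W p r (F r) := by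
  unfold W2 W
  refine tsum_congr fun r => ?_
  rw [← ENNReal.tsum_mul_left]
  refine tsum_congr fun r' => ?_
  rw [← ENNReal.tsum_mul_left]
  refine tsum_congr fun s => ?_
  by_cases hE : F r r' s <;> simp [hE, mul_assoc]

lemma sum_q : ∑' s, q p t s = ∑' r, p t r * m p r := by
  unfold q m
  rw [ENNReal.tsum_comm]
  exact tsum_congr fun r => ENNReal.tsum_mul_left

lemma W2_first2_le {e : ℝ≥0∞} (h1 : ∀ t, m p t ≤ 1 + e) (E : K → K → Prop) :
    W2 p t (fun r₁ r₂ _ => E r₁ r₂) ≤ (1 + e) * W p t E := by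
  unfold W2 W
  rw [← ENNReal.tsum_mul_left]
  refine ENNReal.tsum_le_tsum fun r => ?_
  rw [← ENNReal.tsum_mul_left]
  refine ENNReal.tsum_le_tsum fun r' => ?_
  by_cases hE : E r r'
  · simp only [hE, if_true]
    rw [ENNReal.tsum_mul_left, mul_comm]
    exact mul_le_mul_left (h1 r') _
  · simp [hE]

section hyp
variable {e : ℝ≥0∞} (h1 : ∀ t, m p t ≤ 1 + e) (h2 : ∀ t s, p t s ≤ q p t s) (he : e ≤ 1 / 2)
include h1

lemma sum_q_le (t : K) : ∑' s, q p t s ≤ (1 + e) * m p t := by
  rw [sum_q, mul_comm, m, ← ENNReal.tsum_mul_right]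
  exact ENNReal.tsum_le_tsum fun r => mul_le_mul_right (h1 r) _

lemma sum_pm_le (t : K) : ∑' r, p t r * m p r ≤ (1 + e) * m p t := by
  rw [← sum_q]; exact sum_q_le h1 t

include he
lemma m_ne_top (t : K) : m p t ≠ ⊤ := by
  refine ne_top_of_le_ne_top ?_ (h1 t)
  have : e ≠ ⊤ := ne_top_of_le_ne_top (by norm_num) he
  simp [this]

lemma m_le (t : K) : m p t ≤ 3 / 2 := by
  refine (h1 t).trans ?_
  calc (1 : ℝ≥0∞) + e ≤ 1 + 1 / 2 := by gcongr
    _ = 3 / 2 := by
      rw [show (3 : ℝ≥0∞) = 2 + 1 by norm_num, ENNReal.add_div, ENNReal.div_self] <;> norm_num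

include h2
lemma excess_le (t : K) : ∑' s, (q p t s - p t s) ≤ e * m p t := by
  have hm := m_ne_top h1 he t
  have h : ∑' s, (q p t s - p t s) + m p t ≤ e * m p t + m p t := by
    calc ∑' s, (q p t s - p t s) + m p t = ∑' s, q p t s := by
          unfold m
          rw [← ENNReal.tsum_add]
          exact tsum_congr fun s => tsub_add_cancel_of_le (h2 t s)
      _ ≤ (1 + e) * m p t := sum_q_le h1 t
      _ = e * m p t + m p t := by ring
  exact (ENNReal.add_le_add_iff_right hm).1 h

lemma W_le_W2 (E : K → K → Prop) : W p t E ≤ W2 p t (fun r₁ _ s => E r₁ s) := by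
  rw [W2_first, W_eq]
  refine ENNReal.tsum_le_tsum fun r => mul_le_mul_right (ENNReal.tsum_le_tsum fun s => ?_) _
  by_cases hE : E r s <;> simp [hE, h2]

lemma W2_le_W (E : K → K → Prop) :
    W2 p t (fun r₁ _ s => E r₁ s) ≤ W p t E + e * (1 + e) * m p t := by
  rw [W2_first, W_eq]
  calc ∑' r, p t r * ∑' s, (if E r s then q p r s else 0)
      ≤ ∑' r, (p t r * (∑' s, if E r s then p r s else 0) + p t r * (e * m p r)) := by
        refine ENNReal.tsum_le_tsum fun r => ?_
        rw [← mul_add]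
        refine mul_le_mul_right ?_ _
        calc ∑' s, (if E r s then q p r s else 0)
            ≤ ∑' s, ((if E r s then p r s else 0) + (q p r s - p r s)) := by
              refine ENNReal.tsum_le_tsum fun s => ?_
              by_cases hE : E r s
              · simp only [hE, if_true]; exact le_add_tsub
              · simp [hE]
          _ = (∑' s, if E r s then p r s else 0) + ∑' s, (q p r s - p r s) := ENNReal.tsum_add
          _ ≤ _ := by gcongr; exact excess_le h1 h2 he r
    _ = (∑' r, p t r * ∑' s, if E r s then p r s else 0) + e * ∑' r, p t r * m p r := by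
        rw [ENNReal.tsum_add, ← ENNReal.tsum_mul_left]
        congr 1
        exact tsum_congr fun r => by ring
    _ ≤ _ := by
        rw [mul_assoc]
        gcongr
        exact sum_pm_le h1 t

end hyp

end C93117G
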