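import Pool.Agent.Work.MP_c93117_an.G.Slow

open scoped ENNReal
open Classical

namespace C93117G

universe u
variable {K : Type u} {p : K → K → ℝ≥0∞} {t : K}
variable {e : ℝ≥0∞}

lemma e_one_add (he : e ≤ 1 / 2) (a : ℝ≥0∞) : a * (1 + e) ≤ 2 * a := by
  calc a * (1 + e) ≤ a * (1 + 1) := by
        gcongr
        exact he.trans (by rw [one_div]; exact ENNReal.inv_le_one.2 (by norm_num))
    _ = 2 * a := by ring

lemma W2_last_eq (E : K → K → Prop) :
    W2 p t (fun _ r₂ s => E r₂ s) = ∑' r, q p t r * ∑' s, if E r s then p r s else 0 := by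
  unfold W2
  rw [ENNReal.tsum_comm]
  refine tsum_congr fun r => ?_
  rw [ENNReal.tsum_comm, ← ENNReal.tsum_mul_left]
  refine tsum_congr fun s => ?_
  by_cases hE : E r s
  · simp only [hE, if_true, q]
    rw [ENNReal.tsum_mul_right]
  · simp [hE]

lemma W_le_W2' (h2 : ∀ t s, p t s ≤ q p t s) (E : K → K → Prop) :
    W p t E ≤ W2 p t (fun _ r₂ s => E r₂ s) := by
  rw [W2_last_eq, W_eq]
  exact ENNReal.tsum_le_tsum fun r => mul_le_mul_left (h2 t r) _

lemma W2_atom_le (h1 : ∀ t, m p t ≤ 1 + e) (h2 : ∀ t s, p t s ≤ q p t s) (he : e ≤ 1 / 2)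
    (t : K) (E : K → Prop) :
    W2 p t (fun _ _ s => E s) ≤ W p t (fun _ s => E s) + (1 + e) * (e * m p t) := by
  rw [W2_last_eq (fun _ s => E s), W_eq]
  calc ∑' r, q p t r * ∑' s, (if E s then p r s else 0)
      ≤ ∑' r, (p t r * ∑' s, (if E s then p r s else 0)
          + (q p t r - p t r) * (1 + e)) := by
        refine ENNReal.tsum_le_tsum fun r => ?_
        calc q p t r * ∑' s, (if E s then p r s else 0)
            = (p t r + (q p t r - p t r)) *
                ∑' s, (if E s then p r s else 0) := by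
              rw [add_tsub_cancel_of_le (h2 t r)]
          _ = p t r * ∑' s, (if E s then p r s else 0)
              + (q p t r - p t r) *
                ∑' s, (if E s then p r s else 0) := by ring
          _ ≤ _ := by
              gcongr
              refine le_trans ?_ (h1 r)
              unfold m
              refine ENNReal.tsum_le_tsum fun s => ?_
              split_ifs
              · exact le_rfl
              · exact zero_le
    _ = (∑' r, p t r * ∑' s, (if E s then p r s else 0))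
          + (∑' r, (q p t r - p t r)) * (1 + e) := by
        rw [ENNReal.tsum_add, ENNReal.tsum_mul_right]
    _ ≤ (∑' r, p t r * ∑' s, (if E s then p r s else 0)) + (e * m p t) * (1 + e) := by
        gcongr; exact excess_le h1 h2 he t
    _ = (∑' r, p t r * ∑' s, (if E s then p r s else 0))
          + (1 + e) * (e * m p t) := by ring

lemma W_atom_eq (t : K) (E : K → Prop) :
    W p t (fun _ s => E s) = ∑' s, if E s then q p t s else 0 := by
  unfold W
  rw [ENNReal.tsum_comm]
  refine tsum_congr fun s => ?_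
  by_cases hE : E s
  · simp [hE, q]
  · simp [hE]

/-- atoms whose mass is mostly created by cancellation are rare -/
lemma bad_le (h1 : ∀ t, m p t ≤ 1 + e) (h2 : ∀ t s, p t s ≤ q p t s) (he : e ≤ 1 / 2) (t : K) :
    W2 p t (fun _ _ s => 2 * p t s < q p t s) ≤ (4 * e) * m p t := by
  have hA := W2_atom_le h1 h2 he t (fun s => 2 * p t s < q p t s)
  have hB : W p t (fun _ s => 2 * p t s < q p t s) ≤ 2 * (e * m p t) := by
    rw [W_atom_eq t (fun s => 2 * p t s < q p t s)]
    refine (ENNReal.tsum_le_tsum (g := fun s => 2 * (q p t s - p t s)) fun s => ?_).trans ?_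
    · by_cases hE : 2 * p t s < q p t s
      · simp only [hE, if_true]
        have hps : p t s ≠ ⊤ :=
          ne_top_of_le_ne_top (m_ne_top h1 he t) (ENNReal.le_tsum s)
        have : q p t s + q p t s ≤ (2 * (q p t s - p t s)) + q p t s := by
          calc q p t s + q p t s = 2 * ((q p t s - p t s) + p t s) := by
                rw [tsub_add_cancel_of_le (h2 t s)]; ring
            _ = (2 * (q p t s - p t s)) + 2 * p t s := by ring
            _ ≤ _ := by gcongr
        by_cases hq : q p t s = ⊤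
        · have : q p t s - p t s = ⊤ := by rw [hq]; exact ENNReal.top_sub hps
          simp [this]
        · exact (ENNReal.add_le_add_iff_right hq).1 this
      · simp [hE]
    · rw [ENNReal.tsum_mul_left]
      exact mul_le_mul_right (excess_le h1 h2 he t) _
  calc _ ≤ _ := hA
    _ ≤ 2 * (e * m p t) + (1 + e) * (e * m p t) := by gcongr
    _ = 2 * (e * m p t) + (e * m p t) * (1 + e) := by ring
    _ ≤ 2 * (e * m p t) + 2 * (e * m p t) := add_le_add le_rfl (e_one_add he _)
    _ = _ := by ring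

/-- paths with a large total gain through a small gain: Markov. -/
lemma markov_le (h1 : ∀ t, m p t ≤ 1 + e) (he : e ≤ 1 / 2)
    (t : K) {g h : ℝ≥0∞} (hh : h ≠ 0) (hh' : h ≠ ⊤) :
    W2 p t (fun r₁ r₂ s => ¬ p r₁ s ≤ h * p t s ∧ p r₁ r₂ ≤ g * p t r₂ ∧
      ¬ 2 * p t s < q p t s) ≤ (4 * (g * h⁻¹)) * m p t := by
  have hptop : ∀ t s, p t s ≠ ⊤ := fun t s =>
    ne_top_of_le_ne_top (m_ne_top h1 he t) (ENNReal.le_tsum s)
  set N : K → ℝ≥0∞ := fun s => ∑' r₁, if ¬ p r₁ s ≤ h * p t s then p t r₁ else 0 with hN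
  have hNle : ∀ s, ¬ 2 * p t s < q p t s → N s * q p t s ≤ 2 * h⁻¹ * q p t s := by
    intro s hs
    by_cases h0 : p t s = 0
    · have : q p t s = 0 := by
        rw [not_lt, h0, mul_zero] at hs
        exact le_antisymm hs zero_le
      simp [this]
    · refine mul_le_mul_left ?_ _
      have hmk : (h * p t s) * N s ≤ 2 * p t s := by
        refine le_trans ?_ (not_lt.1 hs)
        rw [hN, ← ENNReal.tsum_mul_left]
        unfold q
        refine ENNReal.tsum_le_tsum fun r => ?_
        by_cases hc : ¬ p r s ≤ h * p t s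
        · rw [if_pos hc, mul_comm]
          exact mul_le_mul_right (le_of_not_ge hc) _
        · rw [if_neg hc]; simp
      have h3 : (h * N s) * p t s ≤ 2 * p t s := by
        calc (h * N s) * p t s = (h * p t s) * N s := by ring
          _ ≤ _ := hmk
      have h4 : h * N s ≤ 2 := (ENNReal.mul_le_mul_iff_left h0 (hptop t s)).1 h3
      calc N s = h⁻¹ * (h * N s) := by
            rw [← mul_assoc, ENNReal.inv_mul_cancel hh hh', one_mul]
        _ ≤ h⁻¹ * 2 := by gcongr
        _ = 2 * h⁻¹ := by ring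
  have hstep : W2 p t (fun r₁ r₂ s => ¬ p r₁ s ≤ h * p t s ∧ p r₁ r₂ ≤ g * p t r₂ ∧
      ¬ 2 * p t s < q p t s) ≤ ∑' s, g * (2 * h⁻¹ * q p t s) := by
    unfold W2
    calc _ ≤ ∑' r₁, ∑' r₂, ∑' s, (if ¬ 2 * p t s < q p t s then
            (if ¬ p r₁ s ≤ h * p t s then p t r₁ else 0) * (g * (p t r₂ * p r₂ s)) else 0) := by
          refine ENNReal.tsum_le_tsum fun r₁ => ENNReal.tsum_le_tsum fun r₂ =>
            ENNReal.tsum_le_tsum fun s => ?_
          by_cases hE : ¬ p r₁ s ≤ h * p t s ∧ p r₁ r₂ ≤ g * p t r₂ ∧ ¬ 2 * p t s < q p t s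
          · rw [if_pos hE, if_pos hE.2.2, if_pos hE.1]
            calc p t r₁ * p r₁ r₂ * p r₂ s ≤ p t r₁ * (g * p t r₂) * p r₂ s := by
                  gcongr; exact hE.2.1
              _ = _ := by ring
          · rw [if_neg hE]; exact zero_le
      _ = ∑' r₁, ∑' s, ∑' r₂, (if ¬ 2 * p t s < q p t s then
            (if ¬ p r₁ s ≤ h * p t s then p t r₁ else 0) * (g * (p t r₂ * p r₂ s)) else 0) := by
          refine tsum_congr fun r₁ => ENNReal.tsum_comm
      _ = ∑' r₁, ∑' s, (if ¬ 2 * p t s < q p t s then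
            (if ¬ p r₁ s ≤ h * p t s then p t r₁ else 0) * (g * q p t s) else 0) := by
          refine tsum_congr fun r₁ => tsum_congr fun s => ?_
          by_cases hc : ¬ 2 * p t s < q p t s
          · simp only [if_pos hc]
            rw [ENNReal.tsum_mul_left, ENNReal.tsum_mul_left]; rfl
          · simp only [if_neg hc, tsum_zero]
      _ = ∑' s, ∑' r₁, (if ¬ 2 * p t s < q p t s then
            (if ¬ p r₁ s ≤ h * p t s then p t r₁ else 0) * (g * q p t s) else 0) :=
          ENNReal.tsum_comm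
      _ ≤ _ := by
          refine ENNReal.tsum_le_tsum fun s => ?_
          by_cases hc : ¬ 2 * p t s < q p t s
          · simp only [if_pos hc]
            rw [ENNReal.tsum_mul_right]
            calc N s * (g * q p t s) = g * (N s * q p t s) := by ring
              _ ≤ _ := mul_le_mul_right (hNle s hc) _
          · simp only [if_neg hc, tsum_zero]; exact zero_le
  refine hstep.trans ?_
  calc ∑' s, g * (2 * h⁻¹ * q p t s) = (2 * (g * h⁻¹)) * ∑' s, q p t s := by
        rw [← ENNReal.tsum_mul_left]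
        exact tsum_congr fun s => by ring
    _ ≤ (2 * (g * h⁻¹)) * ((1 + e) * m p t) := by gcongr; exact sum_q_le h1 t
    _ = ((2 * (g * h⁻¹)) * (1 + e)) * m p t := by ring
    _ ≤ (2 * (2 * (g * h⁻¹))) * m p t := mul_le_mul_left (e_one_add he _) _
    _ = _ := by ring

/-- Steps (B5) + (B6) + (C). -/
lemma coreC (h1 : ∀ t, m p t ≤ 1 + e) (h2 : ∀ t s, p t s ≤ q p t s) (he : e ≤ 1 / 2)
    {ρ x η b δ : ℝ≥0∞} {M : ℕ} (hρ : 1 < ρ) (hρ' : ρ ≠ ⊤) (hx : x ≤ e) (hxρ : ρ ^ M * x = 1)
    (hη : 3 * e ≤ η * (1 - ρ⁻¹)) (hδ : δ ≠ ⊤) (t : K) (S : K → Prop)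
    (hH : ∀ r, W p r (fun r' s => p r' s ≤ ρ ^ (2 * M + 4) * p r s) ≤ b * m p r)
    (b1 : W p t (fun r s => S s ∧ ¬ p r s ≤ ρ ^ (M + 3) * p t s) ≤ δ * m p t)
    (b2 : W p t (fun r s => ¬ S s ∧ p r s ≤ ρ ^ (2 * M + 4) * p t s) ≤ δ * m p t) :
    W p t (fun r _ => S r) ≤ b * W p t (fun r _ => S r) + (4 * δ + 18 * e + η) * m p t := by
  have hρ0 : ρ ≠ 0 := (zero_lt_one.trans hρ).ne'
  have hpow : ∀ n : ℕ, ρ ^ n ≠ ⊤ := fun n => ENNReal.pow_ne_top hρ'
  have hpow0 : ∀ n : ℕ, ρ ^ n ≠ 0 := fun n => pow_ne_zero n hρ0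
  -- C5
  have hC5 : W p t (fun r s => S r ∧ S s) ≤ b * W p t (fun r _ => S r)
      + (δ + 5 * e + η) * m p t := by
    have hsplit : W2 p t (fun r₁ _ s => S r₁ ∧ S s) ≤
        W2 p t (fun r₁ r₂ s => (S r₁ ∧ p r₂ s ≤ ρ ^ (2 * M + 4) * p r₁ s) ∨
          ((p r₁ s ≤ x * p t s) ∨ ((S s ∧ ¬ p r₁ s ≤ ρ ^ (M + 3) * p t s) ∨
          (p r₁ s ≤ ρ ^ (M + 3) * p t s ∧ ρ * (ρ ^ (M + 3) * p t s) ≤ p r₂ s)))) := by
      refine W2_mono ?_
      rintro r₁ r₂ s ⟨ha, hb⟩
      by_cases hc : p r₂ s ≤ ρ ^ (2 * M + 4) * p r₁ s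
      · exact Or.inl ⟨ha, hc⟩
      · right
        by_cases hd : p r₁ s ≤ x * p t s
        · exact Or.inl hd
        · right
          by_cases hf : p r₁ s ≤ ρ ^ (M + 3) * p t s
          · right
            refine ⟨hf, ?_⟩
            push Not at hc hd
            calc ρ * (ρ ^ (M + 3) * p t s) = ρ ^ (M + 4) * (1 * p t s) := by ring
              _ = ρ ^ (M + 4) * ((ρ ^ M * x) * p t s) := by rw [hxρ]
              _ = ρ ^ (2 * M + 4) * (x * p t s) := by ring
              _ ≤ ρ ^ (2 * M + 4) * p r₁ s := by gcongr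
              _ ≤ p r₂ s := hc.le
          · exact Or.inl ⟨hb, hf⟩
    have ht1 : W2 p t (fun r₁ r₂ s => S r₁ ∧ p r₂ s ≤ ρ ^ (2 * M + 4) * p r₁ s)
        ≤ b * W p t (fun r _ => S r) := by
      rw [W2_eq, W_eq, ← ENNReal.tsum_mul_left]
      refine ENNReal.tsum_le_tsum fun r => ?_
      by_cases hS : S r
      · simp only [hS, true_and, if_true]
        calc p t r * W p r (fun r₂ s => p r₂ s ≤ ρ ^ (2 * M + 4) * p r s)
            ≤ p t r * (b * m p r) := mul_le_mul_right (hH r) _
          _ = b * (p t r * m p r) := by ring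
      · simp [hS, W]
    calc W p t (fun r s => S r ∧ S s) ≤ W2 p t (fun r₁ _ s => S r₁ ∧ S s) :=
          W_le_W2 h1 h2 he _
      _ ≤ _ := hsplit
      _ ≤ _ := W2_or
      _ ≤ b * W p t (fun r _ => S r) + (3 * e * m p t +
            ((δ * m p t + e * (1 + e) * m p t) + η * m p t)) := by
          gcongr
          refine W2_or.trans ?_
          gcongr
          · exact neg2 h1 h2 he t hx
          · refine W2_or.trans ?_
            gcongr
            · refine (W2_le_W h1 h2 he
                (fun r s => S s ∧ ¬ p r s ≤ ρ ^ (M + 3) * p t s)).trans ?_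
              gcongr
            · exact up' h1 h2 he t (hpow _) hρ hρ' hη
      _ ≤ b * W p t (fun r _ => S r) + (3 * e * m p t +
            ((δ * m p t + (2 * e) * m p t) + η * m p t)) := by
          have := mul_le_mul_left (e_one_add he e) (m p t)
          exact add_le_add le_rfl (add_le_add le_rfl (add_le_add (add_le_add le_rfl this) le_rfl))
      _ = _ := by ring
  -- C6
  have hC6 : W p t (fun r s => S r ∧ ¬ S s) ≤ (3 * δ + 13 * e) * m p t := by
    have hsplit : W2 p t (fun _ r₂ s => S r₂ ∧ ¬ S s) ≤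
        W2 p t (fun r₁ r₂ s => (¬ S s ∧ p r₁ s ≤ ρ ^ (2 * M + 4) * p t s) ∨
          ((S r₂ ∧ ¬ p r₁ r₂ ≤ ρ ^ (M + 3) * p t r₂) ∨
          ((2 * p t s < q p t s) ∨
          (¬ p r₁ s ≤ ρ ^ (2 * M + 4) * p t s ∧ p r₁ r₂ ≤ ρ ^ (M + 3) * p t r₂ ∧
            ¬ 2 * p t s < q p t s)))) := by
      refine W2_mono ?_
      rintro r₁ r₂ s ⟨ha, hb⟩
      by_cases hc : p r₁ s ≤ ρ ^ (2 * M + 4) * p t s
      · exact Or.inl ⟨hb, hc⟩
      · right
        by_cases hd : p r₁ r₂ ≤ ρ ^ (M + 3) * p t r₂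
        · right
          by_cases hf : 2 * p t s < q p t s
          · exact Or.inl hf
          · exact Or.inr ⟨hc, hd, hf⟩
        · exact Or.inl ⟨ha, hd⟩
    have hgh : ρ ^ (M + 3) * (ρ ^ (2 * M + 4))⁻¹ ≤ x := by
      have h5 : ρ ^ (M + 3) ≤ x * ρ ^ (2 * M + 4) := by
        calc ρ ^ (M + 3) ≤ ρ ^ (M + 4) := pow_le_pow_right₀ hρ.le (by omega)
          _ = (ρ ^ M * x) * ρ ^ (M + 4) := by rw [hxρ, one_mul]
          _ = x * ρ ^ (2 * M + 4) := by ring
      calc ρ ^ (M + 3) * (ρ ^ (2 * M + 4))⁻¹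
          ≤ x * ρ ^ (2 * M + 4) * (ρ ^ (2 * M + 4))⁻¹ := by gcongr
        _ = x := by rw [mul_assoc, ENNReal.mul_inv_cancel (hpow0 _) (hpow _), mul_one]
    calc W p t (fun r s => S r ∧ ¬ S s) ≤ W2 p t (fun _ r₂ s => S r₂ ∧ ¬ S s) :=
          W_le_W2' h2 _
      _ ≤ _ := hsplit
      _ ≤ (δ * m p t + e * (1 + e) * m p t) + ((1 + e) * (δ * m p t) + ((4 * e) * m p t +
            (4 * x) * m p t)) := by
          refine W2_or.trans ?_
          gcongr
          · refine (W2_le_W h1 h2 he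
              (fun r s => ¬ S s ∧ p r s ≤ ρ ^ (2 * M + 4) * p t s)).trans ?_
            gcongr
          · refine W2_or.trans ?_
            gcongr
            · refine (W2_first2_le h1
                (fun r s => S s ∧ ¬ p r s ≤ ρ ^ (M + 3) * p t s)).trans ?_
              gcongr
            · refine W2_or.trans ?_
              gcongr
              · exact bad_le h1 h2 he t
              · refine (markov_le h1 he t (hpow0 _) (hpow _)).trans ?_
                gcongr
      _ = (δ + e * (1 + e) + δ * (1 + e) + 4 * e + 4 * x) * m p t := by ring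
      _ ≤ (δ + 2 * e + 2 * δ + 4 * e + 4 * e) * m p t := by
          refine mul_le_mul_left ?_ _
          exact add_le_add (add_le_add (add_le_add (add_le_add le_rfl (e_one_add he _))
            (e_one_add he _)) le_rfl) (by gcongr)
      _ = (3 * δ + 10 * e) * m p t := by ring
      _ ≤ (3 * δ + 13 * e) * m p t := by
          gcongr; norm_num
  calc W p t (fun r _ => S r) = W p t (fun r s => S r ∧ S s) + W p t (fun r s => S r ∧ ¬ S s) :=
        W_split (fun r _ => S r) (fun _ s => S s)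
    _ ≤ (b * W p t (fun r _ => S r) + (δ + 5 * e + η) * m p t) + (3 * δ + 13 * e) * m p t := by
        gcongr
    _ = _ := by ring

end C93117G
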