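import Pool.Agent.Work.MP_c93117_an.G.Core

open scoped ENNReal
open Classical

namespace C93117G

universe u
variable {K : Type u} {p : K → K → ℝ≥0∞}
variable {e : ℝ≥0∞}

/-- Step (A), first estimate. -/
lemma stepA1 (h1 : ∀ t, m p t ≤ 1 + e) (h2 : ∀ t s, p t s ≤ q p t s) (he : e ≤ 1 / 2)
    {ρ x η : ℝ≥0∞} {M : ℕ} (hρ : 1 < ρ) (hρ' : ρ ≠ ⊤) (hx : x ≤ e) (hxρ : ρ ^ M * x = 1)
    (hη : 3 * e ≤ η * (1 - ρ⁻¹)) (t : K) :
    W2 p t (fun r₁ r₂ s => p r₁ s ≤ ρ ^ 2 * p t s ∧ ¬ p r₂ s ≤ ρ ^ (M + 3) * p r₁ s)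
      ≤ (3 * e + η) * m p t := by
  have hinc : W2 p t (fun r₁ r₂ s => p r₁ s ≤ ρ ^ 2 * p t s ∧
        ¬ p r₂ s ≤ ρ ^ (M + 3) * p r₁ s) ≤
      W2 p t (fun r₁ r₂ s => (p r₁ s ≤ x * p t s) ∨
        (p r₁ s ≤ ρ ^ 2 * p t s ∧ ρ * (ρ ^ 2 * p t s) ≤ p r₂ s)) := by
    refine W2_mono ?_
    rintro r₁ r₂ s ⟨ha, hb⟩
    by_cases hc : p r₁ s ≤ x * p t s
    · exact Or.inl hc
    · refine Or.inr ⟨ha, ?_⟩
      push Not at hb hc
      calc ρ * (ρ ^ 2 * p t s) = ρ ^ 3 * (1 * p t s) := by ring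
        _ = ρ ^ 3 * ((ρ ^ M * x) * p t s) := by rw [hxρ]
        _ = ρ ^ (M + 3) * (x * p t s) := by ring
        _ ≤ ρ ^ (M + 3) * p r₁ s := by gcongr
        _ ≤ p r₂ s := hb.le
  calc _ ≤ _ := hinc
    _ ≤ _ := W2_or
    _ ≤ 3 * e * m p t + η * m p t :=
        add_le_add (neg2 h1 h2 he t hx) (up' h1 h2 he t (ENNReal.pow_ne_top hρ') hρ hρ' hη)
    _ = _ := by ring

/-- Step (A), second estimate. -/
lemma stepA2 (h1 : ∀ t, m p t ≤ 1 + e) (h2 : ∀ t s, p t s ≤ q p t s) (he : e ≤ 1 / 2)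
    {ρ x η a b : ℝ≥0∞} {M : ℕ} (hρ : 1 < ρ) (hρ' : ρ ≠ ⊤) (hx : x ≤ e) (hxρ : ρ ^ M * x = 1)
    (hη : 3 * e ≤ η * (1 - ρ⁻¹)) (t : K)
    (hH : ∀ r, W p r (fun r' s => p r' s ≤ ρ ^ (2 * M + 4) * p r s) ≤ b * m p r)
    (ha : a * m p t ≤ W p t (fun r s => p r s ≤ ρ ^ 2 * p t s)) :
    W2 p t (fun r₁ r₂ s => ¬ p r₁ s ≤ ρ ^ 2 * p t s ∧ p r₂ s ≤ ρ ^ (2 * M + 4) * p r₁ s)
      + a * m p t ≤ (b * (1 + e) + 3 * e + η) * m p t := by
  have e1 := W2_split (p := p) (t := t) (fun r₁ r₂ s => p r₂ s ≤ ρ ^ (2 * M + 4) * p r₁ s)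
    (fun r₁ _ s => p r₁ s ≤ ρ ^ 2 * p t s)
  have e2 := W2_split (p := p) (t := t) (fun r₁ _ s => p r₁ s ≤ ρ ^ 2 * p t s)
    (fun r₁ r₂ s => p r₂ s ≤ ρ ^ (2 * M + 4) * p r₁ s)
  have e3 : W2 p t (fun r₁ r₂ s => p r₂ s ≤ ρ ^ (2 * M + 4) * p r₁ s) ≤ b * (1 + e) * m p t :=
    W2_last_le h1 (F := fun r₁ r₂ s => p r₂ s ≤ ρ ^ (2 * M + 4) * p r₁ s) hH t
  have e4 : W2 p t (fun r₁ r₂ s => p r₁ s ≤ ρ ^ 2 * p t s ∧
      ¬ p r₂ s ≤ ρ ^ (2 * M + 4) * p r₁ s) ≤ (3 * e + η) * m p t := by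
    refine le_trans (W2_mono ?_) (stepA1 h1 h2 he hρ hρ' hx hxρ hη t)
    rintro r₁ r₂ s ⟨ha, hb⟩
    refine ⟨ha, fun hc => hb (hc.trans ?_)⟩
    refine mul_le_mul_left ?_ _
    exact pow_le_pow_right₀ hρ.le (by omega)
  have e5 : a * m p t ≤ W2 p t (fun r₁ r₂ s => p r₁ s ≤ ρ ^ 2 * p t s ∧
      p r₂ s ≤ ρ ^ (2 * M + 4) * p r₁ s) + (3 * e + η) * m p t := by
    calc a * m p t ≤ _ := ha
      _ ≤ _ := W_le_W2 h1 h2 he _
      _ = _ := e2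
      _ ≤ _ := add_le_add le_rfl e4
  have e6 : W2 p t (fun r₁ r₂ s => p r₁ s ≤ ρ ^ 2 * p t s ∧
      p r₂ s ≤ ρ ^ (2 * M + 4) * p r₁ s) ≤ W2 p t (fun r₁ r₂ s =>
        p r₂ s ≤ ρ ^ (2 * M + 4) * p r₁ s ∧ p r₁ s ≤ ρ ^ 2 * p t s) :=
    W2_mono fun r₁ r₂ s h => ⟨h.2, h.1⟩
  have e7 : W2 p t (fun r₁ r₂ s => ¬ p r₁ s ≤ ρ ^ 2 * p t s ∧
      p r₂ s ≤ ρ ^ (2 * M + 4) * p r₁ s) ≤ W2 p t (fun r₁ r₂ s =>
        p r₂ s ≤ ρ ^ (2 * M + 4) * p r₁ s ∧ ¬ p r₁ s ≤ ρ ^ 2 * p t s) :=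
    W2_mono fun r₁ r₂ s h => ⟨h.2, h.1⟩
  calc _ ≤ W2 p t (fun r₁ r₂ s => p r₂ s ≤ ρ ^ (2 * M + 4) * p r₁ s ∧
        ¬ p r₁ s ≤ ρ ^ 2 * p t s) + (W2 p t (fun r₁ r₂ s =>
        p r₂ s ≤ ρ ^ (2 * M + 4) * p r₁ s ∧ p r₁ s ≤ ρ ^ 2 * p t s) + (3 * e + η) * m p t) :=
        add_le_add e7 (e5.trans (add_le_add e6 le_rfl))
    _ = (W2 p t (fun r₁ r₂ s => p r₂ s ≤ ρ ^ (2 * M + 4) * p r₁ s)) + (3 * e + η) * m p t := by
        rw [e1]; ring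
    _ ≤ b * (1 + e) * m p t + (3 * e + η) * m p t := add_le_add e3 le_rfl
    _ = _ := by ring

lemma W_le_two (h1 : ∀ t, m p t ≤ 1 + e) (he : e ≤ 1 / 2) (t : K) (E : K → K → Prop) :
    W p t E ≤ 2 * m p t := by
  rw [W_eq]
  calc _ ≤ ∑' r, p t r * (1 + e) := by
        refine ENNReal.tsum_le_tsum fun r => mul_le_mul_right (le_trans ?_ (h1 r)) _
        unfold m
        refine ENNReal.tsum_le_tsum fun s => ?_
        split_ifs
        · exact le_rfl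
        · exact zero_le
    _ = m p t * (1 + e) := by rw [ENNReal.tsum_mul_right]; rfl
    _ ≤ _ := e_one_add he _

/-- Step (A): a base point `t` and the set `S`. -/
lemma stepA (h1 : ∀ t, m p t ≤ 1 + e) (h2 : ∀ t s, p t s ≤ q p t s) (he : e ≤ 1 / 2)
    {ρ x η a b L : ℝ≥0∞} {M : ℕ} (hρ : 1 < ρ) (hρ' : ρ ≠ ⊤) (hx : x ≤ e)
    (hxρ : ρ ^ M * x = 1) (hη : 3 * e ≤ η * (1 - ρ⁻¹)) (t₀ : K) (hm0 : m p t₀ ≠ 0)
    (hH : ∀ r, W p r (fun r' s => p r' s ≤ ρ ^ (2 * M + 4) * p r s) ≤ b * m p r)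
    (ha : a * m p t₀ ≤ W p t₀ (fun r s => p r s ≤ ρ ^ 2 * p t₀ s)) (hatop : a ≠ ⊤)
    (d : ℝ≥0∞) (hd : b * (1 + e) + 3 * e + η ≤ a + d)
    (hL : 3 / 8 + L * (3 * e + η + d) < a) :
    ∃ t, (1 / 4) * m p t + L * (W p t (fun r s => p t s ≤ ρ ^ 2 * p t₀ s ∧
        ¬ p r s ≤ ρ ^ (M + 3) * p t s)
      + W p t (fun r s => ¬ p t s ≤ ρ ^ 2 * p t₀ s ∧ p r s ≤ ρ ^ (2 * M + 4) * p t s))
      < W p t (fun _ s => p t s ≤ ρ ^ 2 * p t₀ s) := by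
  by_contra hcon'
  have hcon := fun t => not_lt.1 (fun h => hcon' ⟨t, h⟩)
  have hm0' := m_ne_top h1 he t₀
  have hF2 : W2 p t₀ (fun r₁ r₂ s => ¬ p r₁ s ≤ ρ ^ 2 * p t₀ s ∧
      p r₂ s ≤ ρ ^ (2 * M + 4) * p r₁ s) ≤ d * m p t₀ := by
    have h3 := stepA2 h1 h2 he hρ hρ' hx hxρ hη t₀ hH ha
    have h4 : W2 p t₀ (fun r₁ r₂ s => ¬ p r₁ s ≤ ρ ^ 2 * p t₀ s ∧
      p r₂ s ≤ ρ ^ (2 * M + 4) * p r₁ s) + a * m p t₀ ≤ d * m p t₀ + a * m p t₀ := by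
      calc _ ≤ _ := h3
        _ ≤ (a + d) * m p t₀ := mul_le_mul_left hd _
        _ = _ := by ring
    exact (ENNReal.add_le_add_iff_right (ENNReal.mul_ne_top hatop hm0')).1 h4
  have hF1 := stepA1 h1 h2 he hρ hρ' hx hxρ hη t₀
  have hbig : a * m p t₀ ≤ (3 / 8 + L * (3 * e + η + d)) * m p t₀ := by
    calc a * m p t₀ ≤ _ := ha
      _ ≤ W2 p t₀ (fun r₁ _ s => p r₁ s ≤ ρ ^ 2 * p t₀ s) := W_le_W2 h1 h2 he _
      _ = ∑' r, p t₀ r * W p r (fun _ s => p r s ≤ ρ ^ 2 * p t₀ s) := by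
          rw [W2_eq]
      _ ≤ ∑' r, p t₀ r * ((1 / 4) * m p r + L * (W p r (fun r' s => p r s ≤ ρ ^ 2 * p t₀ s ∧
            ¬ p r' s ≤ ρ ^ (M + 3) * p r s)
          + W p r (fun r' s => ¬ p r s ≤ ρ ^ 2 * p t₀ s ∧
            p r' s ≤ ρ ^ (2 * M + 4) * p r s))) :=
          ENNReal.tsum_le_tsum fun r => mul_le_mul_right (hcon r) _
      _ = (1 / 4) * ∑' r, p t₀ r * m p r + L * (W2 p t₀ (fun r₁ r₂ s => p r₁ s ≤ ρ ^ 2 * p t₀ s ∧
            ¬ p r₂ s ≤ ρ ^ (M + 3) * p r₁ s) + W2 p t₀ (fun r₁ r₂ s =>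
            ¬ p r₁ s ≤ ρ ^ 2 * p t₀ s ∧ p r₂ s ≤ ρ ^ (2 * M + 4) * p r₁ s)) := by
          rw [W2_eq, W2_eq, ← ENNReal.tsum_add, ← ENNReal.tsum_mul_left,
            ← ENNReal.tsum_mul_left, ← ENNReal.tsum_add]
          exact tsum_congr fun r => by ring
      _ ≤ (1 / 4) * ((1 + e) * m p t₀) + L * ((3 * e + η) * m p t₀ + d * m p t₀) := by
          gcongr
          exact sum_pm_le h1 t₀
      _ ≤ (1 / 4) * ((3 / 2) * m p t₀) + L * ((3 * e + η) * m p t₀ + d * m p t₀) := by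
          gcongr
          calc (1 : ℝ≥0∞) + e ≤ 1 + 1 / 2 := by gcongr
            _ = 3 / 2 := by
              rw [show (3 : ℝ≥0∞) = 2 + 1 by norm_num, ENNReal.add_div, ENNReal.div_self] <;>
                norm_num
      _ = (3 / 8 + L * (3 * e + η + d)) * m p t₀ := by
          have h38 : (1 / 4 : ℝ≥0∞) * (3 / 2) = 3 / 8 := by
            have h0 : ((1 / 4 : NNReal) : ℝ≥0∞) * ((3 / 2 : NNReal) : ℝ≥0∞)
                = ((3 / 8 : NNReal) : ℝ≥0∞) := by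
              rw [← ENNReal.coe_mul]; congr 1; norm_num
            simpa [ENNReal.coe_div] using h0
          rw [← mul_assoc, h38]; ring
  have := (ENNReal.mul_le_mul_iff_left hm0 hm0').1 hbig
  exact absurd hL (not_lt.2 this)

/-- lower bound on the mass of `S` seen by the first step. -/
lemma mass_lower (h1 : ∀ t, m p t ≤ 1 + e) (h2 : ∀ t s, p t s ≤ q p t s) (he : e ≤ 1 / 2)
    (t : K) (S : K → Prop) :
    W p t (fun _ s => S s) ≤ W p t (fun r _ => S r) + 2 * e * m p t := by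
  have hm := m_ne_top h1 he t
  have e1 : W p t (fun _ s => S s) ≤ (∑' s, if S s then p t s else 0) + e * m p t := by
    rw [W_atom_eq]
    calc ∑' s, (if S s then q p t s else 0)
        ≤ ∑' s, ((if S s then p t s else 0) + (q p t s - p t s)) := by
          refine ENNReal.tsum_le_tsum fun s => ?_
          by_cases hE : S s
          · simp only [hE, if_true]; exact le_add_tsub
          · simp [hE]
      _ = (∑' s, if S s then p t s else 0) + ∑' s, (q p t s - p t s) := ENNReal.tsum_add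
      _ ≤ _ := by gcongr; exact excess_le h1 h2 he t
  have e2 : (∑' s, if S s then p t s else 0) ≤ W p t (fun r _ => S r) + e * m p t := by
    set A : ℝ≥0∞ := ∑' s, if S s then p t s else 0 with hA
    set B : ℝ≥0∞ := ∑' s, if S s then 0 else p t s with hB
    have hAB : A + B = m p t := by
      rw [hA, hB, ← ENNReal.tsum_add]
      unfold m
      refine tsum_congr fun s => ?_
      by_cases hE : S s <;> simp [hE]
    have hBtop : B ≠ ⊤ := ne_top_of_le_ne_top hm (hAB ▸ le_add_self)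
    have h3 : A + B ≤ (W p t (fun r _ => S r) + e * m p t) + B := by
      calc A + B = m p t := hAB
        _ ≤ ∑' s, q p t s := ENNReal.tsum_le_tsum fun s => h2 t s
        _ = ∑' r, p t r * m p r := sum_q
        _ ≤ ∑' r, ((p t r * ∑' s, (if S r then p r s else 0)) +
              (if S r then 0 else p t r) * (1 + e)) := by
            refine ENNReal.tsum_le_tsum fun r => ?_
            by_cases hE : S r
            · simp [hE, m]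
            · simp only [hE, if_false, tsum_zero, mul_zero, zero_add]
              exact mul_le_mul_right (h1 r) _
        _ = W p t (fun r _ => S r) + B * (1 + e) := by
            rw [ENNReal.tsum_add, ENNReal.tsum_mul_right, W_eq]
        _ = W p t (fun r _ => S r) + (e * B) + B := by ring
        _ ≤ (W p t (fun r _ => S r) + e * m p t) + B := by
            gcongr
            rw [← hAB]; exact le_add_self
    exact (ENNReal.add_le_add_iff_right hBtop).1 h3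
  calc _ ≤ _ := e1
    _ ≤ W p t (fun r _ => S r) + e * m p t + e * m p t := by gcongr
    _ = _ := by ring

end C93117G
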