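import Pool.Agent.Work.MP_c93117_an.G.Final

open scoped ENNReal
open Classical

namespace C93117G

universe u
variable {K : Type u} {p : K → K → ℝ≥0∞}
variable {e : ℝ≥0∞}

/-- The contradiction at one scale `ρ`. -/
lemma scale_false (h1 : ∀ t, m p t ≤ 1 + e) (h2 : ∀ t s, p t s ≤ q p t s) (he : e ≤ 1 / 2)
    {ρ η a κ c : ℝ≥0∞} {M : ℕ} (hρ : 1 < ρ) (hρ' : ρ ≠ ⊤) (hM : (ρ ^ M)⁻¹ ≤ e)
    (hη : 3 * e ≤ η * (1 - ρ⁻¹)) (hκ : 4 * e + (3 * M + 4) * η ≤ κ)
    (hκc : 10000 * κ ≤ c) (hc : c ≤ 1 / 4) (hc0 : c ≠ 0) (hac : a + κ + c = 1)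
    (hQ : ∀ t, W p t (fun r s => p r s ≤ ρ ^ 2 * p t s) ≤ (a + κ) * m p t)
    (t₁ : K) (hQ' : (a + κ) * m p t₁ < W p t₁ (fun r s => p r s ≤ ρ ^ (2 * M + 4) * p t₁ s)) :
    False := by
  have hρ0 : ρ ≠ 0 := (zero_lt_one.trans hρ).ne'
  have hpow : ∀ n : ℕ, ρ ^ n ≠ ⊤ := fun n => ENNReal.pow_ne_top hρ'
  have hpow0 : ∀ n : ℕ, ρ ^ n ≠ 0 := fun n => pow_ne_zero n hρ0
  set x : ℝ≥0∞ := (ρ ^ M)⁻¹ with hx
  have hxρ : ρ ^ M * x = 1 := ENNReal.mul_inv_cancel (hpow0 _) (hpow _)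
  have hjx : ρ ^ (3 * M + 4) * x = ρ ^ (2 * M + 4) := by
    calc ρ ^ (3 * M + 4) * x = ρ ^ (2 * M + 4) * (ρ ^ M * x) := by ring
      _ = _ := by rw [hxρ, mul_one]
  have ha1 : a ≤ 1 := by rw [← hac, add_assoc]; exact le_self_add
  have hatop : a ≠ ⊤ := ne_top_of_le_ne_top ENNReal.one_ne_top ha1
  have hctop : c ≠ ⊤ := ne_top_of_le_ne_top (by norm_num) hc
  have hκtop : κ ≠ ⊤ := by
    refine ne_top_of_le_ne_top ENNReal.one_ne_top ?_
    rw [← hac, add_right_comm]; exact le_add_self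
  have hetop : e ≠ ⊤ := ne_top_of_le_ne_top (by norm_num) he
  have heκ : 4 * e ≤ κ := le_self_add.trans hκ
  have hηκ : 4 * η ≤ κ := by
    refine le_trans ?_ (le_add_self.trans hκ)
    gcongr
    exact le_add_self
  have hηtop : η ≠ ⊤ := by
    refine ne_top_of_le_ne_top hκtop (le_trans ?_ hηκ)
    exact le_mul_of_one_le_left zero_le (by norm_num)
  -- H1
  have hH1 : ∃ t₀, a * m p t₀ < W p t₀ (fun r s => p r s ≤ ρ ^ 2 * p t₀ s) := by
    by_contra hcon'
    have hcon := fun t => not_lt.1 (fun h => hcon' ⟨t, h⟩)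
    have h3 := slow h1 h2 he hρ hρ' hM hη hcon (3 * M + 4) t₁
    rw [hjx] at h3
    refine absurd hQ' (not_lt.2 (h3.trans ?_))
    refine mul_le_mul_left ?_ _
    calc a * (1 + e) + 3 * e + (3 * M + 4 : ℕ) * η
        = a + a * e + 3 * e + (3 * M + 4) * η := by push_cast; ring
      _ ≤ a + 1 * e + 3 * e + (3 * M + 4) * η := by gcongr
      _ = a + (4 * e + (3 * M + 4) * η) := by ring
      _ ≤ a + κ := by gcongr
  obtain ⟨t₀, ht₀⟩ := hH1
  have hm0 : m p t₀ ≠ 0 := by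
    intro h0
    have := W_le_two h1 he t₀ (fun r s => p r s ≤ ρ ^ 2 * p t₀ s)
    rw [h0] at this ht₀
    simp only [mul_zero] at this ht₀
    exact absurd ht₀ (not_lt.2 this)
  -- H2
  have hH2 : ∀ r, W p r (fun r' s => p r' s ≤ ρ ^ (2 * M + 4) * p r s) ≤ (a + 2 * κ) * m p r := by
    intro r
    have h3 := slow h1 h2 he hρ hρ' hM hη hQ (3 * M + 4) r
    rw [hjx] at h3
    refine h3.trans (mul_le_mul_left ?_ _)
    calc (a + κ) * (1 + e) + 3 * e + (3 * M + 4 : ℕ) * η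
        = (a + κ) + (a + κ) * e + 3 * e + (3 * M + 4) * η := by push_cast; ring
      _ ≤ (a + κ) + 1 * e + 3 * e + (3 * M + 4) * η := by
          gcongr
          rw [← hac]; exact le_self_add
      _ = (a + κ) + (4 * e + (3 * M + 4) * η) := by ring
      _ ≤ (a + κ) + κ := by gcongr
      _ = _ := by ring
  -- real numbers
  set A := a.toReal
  set k := κ.toReal
  set C := c.toReal
  set E := e.toReal
  set N := η.toReal
  have rA : a = ENNReal.ofReal A := (ENNReal.ofReal_toReal hatop).symm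
  have rk : κ = ENNReal.ofReal k := (ENNReal.ofReal_toReal hκtop).symm
  have rC : c = ENNReal.ofReal C := (ENNReal.ofReal_toReal hctop).symm
  have rE : e = ENNReal.ofReal E := (ENNReal.ofReal_toReal hetop).symm
  have rN : η = ENNReal.ofReal N := (ENNReal.ofReal_toReal hηtop).symm
  have pA : 0 ≤ A := ENNReal.toReal_nonneg
  have pk : 0 ≤ k := ENNReal.toReal_nonneg
  have pE : 0 ≤ E := ENNReal.toReal_nonneg
  have pN : 0 ≤ N := ENNReal.toReal_nonneg
  have pC : 0 < C := ENNReal.toReal_pos hc0 hctop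
  have q1 : A + k + C = 1 := by
    have := congrArg ENNReal.toReal hac
    rwa [ENNReal.toReal_add (by simp [hatop, hκtop]) hctop, ENNReal.toReal_add hatop hκtop,
      ENNReal.toReal_one] at this
  have q2 : 10000 * k ≤ C := by
    have := ENNReal.toReal_mono hctop hκc
    rwa [ENNReal.toReal_mul] at this
  have q3 : C ≤ 1 / 4 := by
    have := ENNReal.toReal_mono (by norm_num) hc
    simpa using this
  have q4 : 4 * E ≤ k := by
    have := ENNReal.toReal_mono hκtop heκ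
    rwa [ENNReal.toReal_mul] at this
  have q5 : 4 * N ≤ k := by
    have := ENNReal.toReal_mono hκtop hηκ
    rwa [ENNReal.toReal_mul] at this
  set L : ℝ≥0∞ := ENNReal.ofReal (128 / C) with hLdef
  set δ : ℝ≥0∞ := ENNReal.ofReal (C / 64) with hδdef
  have pL : 0 < 128 / C := by positivity
  have pδ : 0 < C / 64 := by positivity
  have r3 : (3 : ℝ≥0∞) = ENNReal.ofReal 3 := by norm_num
  have r2 : (2 : ℝ≥0∞) = ENNReal.ofReal 2 := by norm_num
  have r4 : (4 : ℝ≥0∞) = ENNReal.ofReal 4 := by norm_num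
  have r18 : (18 : ℝ≥0∞) = ENNReal.ofReal 18 := by norm_num
  have r1 : (1 : ℝ≥0∞) = ENNReal.ofReal 1 := by norm_num
  have r38 : (3 / 8 : ℝ≥0∞) = ENNReal.ofReal (3 / 8) := by
    rw [ENNReal.ofReal_div_of_pos (by norm_num)]; norm_num
  have hAk : A ≥ 5 / 8 := by linarith
  have hEk : E ≤ k := by linarith
  have hk1 : k ≤ 1 / 8 := by linarith
  -- d
  have hd : (a + 2 * κ) * (1 + e) + 3 * e + η ≤ a + (2 * κ + 4 * e + 2 * e + η) := by
    calc (a + 2 * κ) * (1 + e) + 3 * e + η = a + (2 * κ + (a + 2 * κ) * e + 3 * e + η) := by ring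
      _ ≤ a + (2 * κ + 3 * e + 3 * e + η) := by
          gcongr
          rw [rA, rk, r2, r3, ← ENNReal.ofReal_mul (by norm_num),
            ← ENNReal.ofReal_add pA (by positivity)]
          exact ENNReal.ofReal_le_ofReal (by linarith)
      _ = _ := by ring
  have hL : 3 / 8 + L * (3 * e + η + (2 * κ + 4 * e + 2 * e + η)) < a := by
    rw [r38, rA, rk, rE, rN, r2, r3, r4, hLdef]
    rw [← ENNReal.ofReal_mul (by norm_num), ← ENNReal.ofReal_mul (by norm_num),
      ← ENNReal.ofReal_mul (by norm_num), ← ENNReal.ofReal_mul (by norm_num),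
      ← ENNReal.ofReal_add (by positivity) (by positivity),
      ← ENNReal.ofReal_add (by positivity) (by positivity),
      ← ENNReal.ofReal_add (by positivity) (by positivity),
      ← ENNReal.ofReal_add (by positivity) (by positivity),
      ← ENNReal.ofReal_add (by positivity) (by positivity),
      ← ENNReal.ofReal_mul (by positivity),
      ← ENNReal.ofReal_add (by positivity) (by positivity)]
    rw [ENNReal.ofReal_lt_ofReal_iff (by linarith)]
    have h8 : 3 * E + N + (2 * k + 4 * E + 2 * E + N) ≤ 5 * k := by linarith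
    have h9 : 128 / C * (3 * E + N + (2 * k + 4 * E + 2 * E + N)) ≤ 1 / 8 := by
      calc 128 / C * (3 * E + N + (2 * k + 4 * E + 2 * E + N)) ≤ 128 / C * (5 * k) := by gcongr
        _ = 640 * k / C := by ring
        _ ≤ 1 / 8 := by
            rw [div_le_iff₀ pC]; linarith
    linarith
  obtain ⟨t, ht⟩ := stepA h1 h2 he hρ hρ' hM hxρ hη t₀ hm0 hH2 ht₀.le hatop _ hd hL
  have hmt := m_ne_top h1 he t
  have hmt0 : m p t ≠ 0 := by
    intro h0
    have := W_le_two h1 he t (fun _ s => p t s ≤ ρ ^ 2 * p t₀ s)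
    rw [h0, mul_zero] at this
    exact absurd ht (not_lt.2 (this.trans zero_le))
  set S : K → Prop := fun s => p t s ≤ ρ ^ 2 * p t₀ s with hS
  -- f1, f2 small
  have hLδ : L * δ = 2 := by
    rw [hLdef, hδdef, ← ENNReal.ofReal_mul pL.le]
    rw [show 128 / C * (C / 64) = 2 by field_simp; norm_num]
    norm_num
  have hL0 : L ≠ 0 := by
    rw [hLdef]; exact (ENNReal.ofReal_pos.2 pL).ne'
  have hLtop : L ≠ ⊤ := ENNReal.ofReal_ne_top
  have hδtop : δ ≠ ⊤ := ENNReal.ofReal_ne_top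
  have hWS := W_le_two h1 he t (fun _ s => S s)
  have hb12 : W p t (fun r s => S s ∧ ¬ p r s ≤ ρ ^ (M + 3) * p t s)
      + W p t (fun r s => ¬ S s ∧ p r s ≤ ρ ^ (2 * M + 4) * p t s) ≤ δ * m p t := by
    refine (ENNReal.mul_le_mul_iff_right hL0 hLtop).1 ?_
    calc L * (W p t (fun r s => S s ∧ ¬ p r s ≤ ρ ^ (M + 3) * p t s)
      + W p t (fun r s => ¬ S s ∧ p r s ≤ ρ ^ (2 * M + 4) * p t s))
        ≤ 2 * m p t := (le_add_self.trans ht.le).trans hWS
      _ = L * (δ * m p t) := by rw [← mul_assoc, hLδ]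
  have hC := coreC h1 h2 he hρ hρ' hM hxρ hη hδtop t S hH2
    (le_self_add.trans hb12) (le_add_self.trans hb12)
  have hlow := mass_lower h1 h2 he t S
  -- conclude
  have hYtop : W p t (fun r _ => S r) ≠ ⊤ :=
    ne_top_of_le_ne_top (ENNReal.mul_ne_top (by norm_num) hmt) (W_le_two h1 he t _)
  set Y := (W p t (fun r _ => S r)).toReal with hY
  set mr := (m p t).toReal with hmr
  have pm : 0 < mr := ENNReal.toReal_pos hmt0 hmt
  have rY : W p t (fun r _ => S r) = ENNReal.ofReal Y := (ENNReal.ofReal_toReal hYtop).symm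
  have rm : m p t = ENNReal.ofReal mr := (ENNReal.ofReal_toReal hmt).symm
  have pY : 0 ≤ Y := ENNReal.toReal_nonneg
  have f1 : Y ≤ (A + 2 * k) * Y + (4 * (C / 64) + 18 * E + N) * mr := by
    rw [rY, rm, rA, rk, rE, rN, r2, r4, r18, hδdef] at hC
    rw [← ENNReal.ofReal_mul (by norm_num), ← ENNReal.ofReal_mul (by norm_num),
      ← ENNReal.ofReal_mul (by norm_num),
      ← ENNReal.ofReal_add (by positivity) (by positivity),
      ← ENNReal.ofReal_mul (by positivity),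
      ← ENNReal.ofReal_add (by positivity) (by positivity),
      ← ENNReal.ofReal_add (by positivity) (by positivity),
      ← ENNReal.ofReal_mul (by positivity),
      ← ENNReal.ofReal_add (by positivity) (by positivity)] at hC
    exact (ENNReal.ofReal_le_ofReal_iff (by positivity)).1 hC
  have f2 : (1 / 4) * mr ≤ Y + 2 * E * mr := by
    have h14 : (1 / 4 : ℝ≥0∞) = ENNReal.ofReal (1 / 4) := by
      rw [ENNReal.ofReal_div_of_pos (by norm_num)]; norm_num
    have h7 : (1 / 4) * m p t ≤ W p t (fun r _ => S r) + 2 * e * m p t :=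
      (le_self_add.trans ht.le).trans hlow
    rw [rY, rm, rE, r2, h14] at h7
    rw [← ENNReal.ofReal_mul (by norm_num), ← ENNReal.ofReal_mul (by norm_num),
      ← ENNReal.ofReal_mul (by positivity),
      ← ENNReal.ofReal_add (by positivity) (by positivity)] at h7
    exact (ENNReal.ofReal_le_ofReal_iff (by positivity)).1 h7
  have f3 : (C / 2) * Y ≤ (1 - (A + 2 * k)) * Y := by
    gcongr; linarith
  have f4 : (C / 2) * Y ≤ (4 * (C / 64) + 18 * E + N) * mr := by linarith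
  have f5 : Y ≥ (1 / 4 - 2 * E) * mr := by linarith
  have f6 : (C / 2) * ((1 / 4 - 2 * E) * mr) ≤ (4 * (C / 64) + 18 * E + N) * mr := by
    refine le_trans ?_ f4
    gcongr
  have f7 : (C / 2) * (1 / 4 - 2 * E) ≤ 4 * (C / 64) + 18 * E + N := by
    have : (C / 2) * (1 / 4 - 2 * E) * mr ≤ (4 * (C / 64) + 18 * E + N) * mr := by linarith
    exact le_of_mul_le_mul_right this pm
  nlinarith

/-- **Theorem G, gain form.** -/
theorem gain_exists {ρ₀ : ℝ} (hρ₀ : 1 < ρ₀) {c : ℝ} (hc : 0 < c) (hc' : c ≤ 1 / 4) :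
    ∃ e₀ : ℝ, 0 < e₀ ∧ e₀ ≤ 1 / 2 ∧ ∀ (K : Type u) (p : K → K → ℝ≥0∞),
      (∀ t, m p t ≤ 1 + ENNReal.ofReal e₀) → (∀ t s, p t s ≤ q p t s) → (∃ t, m p t ≠ 0) →
      ∃ t, ENNReal.ofReal (1 - c) * m p t <
        W p t (fun r s => p r s ≤ ENNReal.ofReal ρ₀ ^ 2 * p t s) := by
  set r : ℝ := ρ₀⁻¹ with hr
  have hr0 : 0 < r := by positivity
  have hr1 : r < 1 := inv_lt_one_of_one_lt₀ hρ₀
  -- choose M
  have hlim : Filter.Tendsto (fun M : ℕ => 4 * r ^ M + (3 * (M : ℝ) + 4) * (3 * r ^ M / (1 - r)))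
      Filter.atTop (nhds 0) := by
    have t1 : Filter.Tendsto (fun M : ℕ => r ^ M) Filter.atTop (nhds 0) :=
      tendsto_pow_atTop_nhds_zero_of_lt_one hr0.le hr1
    have t2 : Filter.Tendsto (fun M : ℕ => (M : ℝ) * r ^ M) Filter.atTop (nhds 0) :=
      tendsto_self_mul_const_pow_of_lt_one hr0.le hr1
    have t3 : Filter.Tendsto (fun M : ℕ => 4 * r ^ M + (9 / (1 - r)) * ((M : ℝ) * r ^ M)
        + (12 / (1 - r)) * r ^ M) Filter.atTop
        (nhds (4 * 0 + (9 / (1 - r)) * 0 + (12 / (1 - r)) * 0)) :=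
      ((t1.const_mul 4).add (t2.const_mul _)).add (t1.const_mul _)
    simp only [mul_zero, add_zero] at t3
    refine t3.congr fun M => ?_
    ring
  have hev : ∀ᶠ M : ℕ in Filter.atTop,
      4 * r ^ M + (3 * (M : ℝ) + 4) * (3 * r ^ M / (1 - r)) < c / 10000 :=
    hlim.eventually (gt_mem_nhds (by positivity))
  obtain ⟨M, hM⟩ := hev.exists
  have h1r : 0 < 1 - r := by linarith
  have hrM : 0 < r ^ M := by positivity
  have hη0 : 0 ≤ 3 * r ^ M / (1 - r) := by positivity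
  have hrM2 : r ^ M ≤ 1 / 2 := by
    have : 4 * r ^ M ≤ 4 * r ^ M + (3 * (M : ℝ) + 4) * (3 * r ^ M / (1 - r)) := by
      have : 0 ≤ (3 * (M : ℝ) + 4) * (3 * r ^ M / (1 - r)) := by positivity
      linarith
    linarith
  refine ⟨r ^ M, hrM, hrM2, ?_⟩
  intro K p h1 h2 hne
  set e : ℝ≥0∞ := ENNReal.ofReal (r ^ M) with he_def
  have he : e ≤ 1 / 2 := by
    have h12 : (1 / 2 : ℝ≥0∞) = ENNReal.ofReal (1 / 2) := by
      rw [ENNReal.ofReal_div_of_pos (by norm_num)]; norm_num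
    rw [he_def, h12]
    exact ENNReal.ofReal_le_ofReal hrM2
  set R : ℝ≥0∞ := ENNReal.ofReal ρ₀ with hR
  have hR1 : 1 < R := by
    rw [hR, ← ENNReal.ofReal_one]
    exact (ENNReal.ofReal_lt_ofReal_iff (by linarith)).2 hρ₀
  have hRtop : R ≠ ⊤ := ENNReal.ofReal_ne_top
  set η : ℝ≥0∞ := ENNReal.ofReal (3 * r ^ M / (1 - r)) with hη
  set κ : ℝ≥0∞ := ENNReal.ofReal (c / 10000) with hκ
  set a : ℝ≥0∞ := ENNReal.ofReal (1 - c - c / 10000) with ha
  have hakap : a + κ = ENNReal.ofReal (1 - c) := by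
    rw [ha, hκ, ← ENNReal.ofReal_add (by linarith) (by positivity)]
    congr 1; ring
  by_contra hcon'
  have hcon : ∀ t, W p t (fun r s => p r s ≤ R ^ 2 * p t s) ≤ (a + κ) * m p t := by
    rw [hakap]
    exact fun t => not_lt.1 (fun h => hcon' ⟨t, h⟩)
  -- scales
  set ρ : ℕ → ℝ≥0∞ := fun i => R ^ ((M + 2) ^ i) with hρdef
  have hρ1 : ∀ i, R ≤ ρ i := by
    intro i
    calc R = R ^ 1 := (pow_one R).symm
      _ ≤ R ^ ((M + 2) ^ i) := pow_le_pow_right₀ hR1.le (Nat.one_le_pow _ _ (by omega))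
  have hρtop : ∀ i, ρ i ≠ ⊤ := fun i => ENNReal.pow_ne_top hRtop
  have hρsucc : ∀ i, ρ (i + 1) ^ 2 = ρ i ^ (2 * M + 4) := by
    intro i
    simp only [hρdef]
    rw [← pow_mul, ← pow_mul]
    congr 1; ring
  obtain ⟨t, ht⟩ := hne
  -- there is a scale where the bound fails
  have hfail : ∃ i, ¬ ∀ t, W p t (fun r s => p r s ≤ ρ i ^ 2 * p t s) ≤ (a + κ) * m p t := by
    by_contra hall'
    push Not at hall'
    have hmono : Monotone (fun i => ρ i ^ 2) := by
      intro i j hij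
      simp only [hρdef]
      gcongr
      · exact hR1.le
      · omega
    have hunb : ∀ A : ℝ≥0∞, A ≠ ⊤ → ∃ i, A ≤ ρ i ^ 2 := by
      intro A hA
      have htend : Filter.Tendsto (fun n : ℕ => ρ₀ ^ n) Filter.atTop Filter.atTop :=
        tendsto_pow_atTop_atTop_of_one_lt hρ₀
      obtain ⟨n, hn⟩ := (htend.eventually (Filter.eventually_ge_atTop A.toReal)).exists
      refine ⟨n, ?_⟩
      calc A = ENNReal.ofReal A.toReal := (ENNReal.ofReal_toReal hA).symm
        _ ≤ ENNReal.ofReal (ρ₀ ^ n) := ENNReal.ofReal_le_ofReal hn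
        _ = R ^ n := ENNReal.ofReal_pow (by linarith) n
        _ ≤ R ^ ((M + 2) ^ n) := by
            refine pow_le_pow_right₀ hR1.le ?_
            exact (Nat.lt_pow_self (by omega)).le
        _ = ρ n ^ 1 := by rw [pow_one]
        _ ≤ ρ n ^ 2 := pow_le_pow_right₀ (hR1.le.trans (hρ1 n)) (by omega)
    have h3 := limit_le h1 h2 he (fun i => ρ i ^ 2) hmono hunb t ((a + κ) * m p t)
      (fun i => hall' i t)
    have h4 : 1 * m p t ≤ (a + κ) * m p t := by rwa [one_mul]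
    have h5 := (ENNReal.mul_le_mul_iff_left ht (m_ne_top h1 he t)).1 h4
    rw [hakap, ← ENNReal.ofReal_one, ENNReal.ofReal_le_ofReal_iff (by linarith)] at h5
    linarith
  -- first failing scale
  have hfail0 : ¬ ¬ ∀ t, W p t (fun r s => p r s ≤ ρ 0 ^ 2 * p t s) ≤ (a + κ) * m p t := by
    rw [not_not]
    simpa [hρdef] using hcon
  obtain ⟨i, hi, hi'⟩ : ∃ i, (∀ t, W p t (fun r s => p r s ≤ ρ i ^ 2 * p t s)
      ≤ (a + κ) * m p t) ∧
      ¬ ∀ t, W p t (fun r s => p r s ≤ ρ (i + 1) ^ 2 * p t s) ≤ (a + κ) * m p t := by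
    have hfind := Nat.find_spec hfail
    set j := Nat.find hfail with hj
    have hj0 : j ≠ 0 := by
      intro h0
      rw [h0] at hfind
      exact hfail0 hfind
    obtain ⟨i, hi⟩ := Nat.exists_eq_succ_of_ne_zero hj0
    refine ⟨i, ?_, ?_⟩
    · have := Nat.find_min hfail (m := i) (by omega)
      exact not_not.1 this
    · rw [hi] at hfind; exact hfind
  push Not at hi'
  obtain ⟨t₁, ht₁⟩ := hi'
  rw [hρsucc] at ht₁
  have hρi1 : 1 < ρ i := hR1.trans_le (hρ1 i)
  have hRr : R⁻¹ = ENNReal.ofReal r := by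
    rw [hR, hr, ENNReal.ofReal_inv_of_pos (by linarith)]
  refine scale_false (e := e) (η := η) (a := a) (κ := κ) (c := ENNReal.ofReal c) (M := M)
    h1 h2 he hρi1 (hρtop i) ?_ ?_ ?_ ?_ ?_ ?_ ?_ hi t₁ ht₁
  · calc (ρ i ^ M)⁻¹ ≤ (R ^ M)⁻¹ := by
          rw [ENNReal.inv_le_inv]
          exact pow_le_pow_left₀ zero_le (hρ1 i) M
      _ = e := by
          rw [ENNReal.inv_pow, hRr, he_def, ENNReal.ofReal_pow hr0.le]
  · calc 3 * e = η * ENNReal.ofReal (1 - r) := by
          rw [hη, he_def, ← ENNReal.ofReal_mul hη0,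
            show (3 : ℝ≥0∞) = ENNReal.ofReal 3 by norm_num, ← ENNReal.ofReal_mul (by norm_num)]
          congr 1; field_simp
      _ = η * (1 - R⁻¹) := by
          rw [hRr, ENNReal.ofReal_sub _ hr0.le, ENNReal.ofReal_one]
      _ ≤ η * (1 - (ρ i)⁻¹) := by
          gcongr
          exact hρ1 i
  · rw [hη, he_def, hκ]
    rw [show (4 : ℝ≥0∞) = ENNReal.ofReal 4 by norm_num,
      show (3 : ℝ≥0∞) = ENNReal.ofReal 3 by norm_num,
      show ((M : ℕ) : ℝ≥0∞) = ENNReal.ofReal (M : ℝ) by simp]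
    rw [← ENNReal.ofReal_mul (by norm_num), ← ENNReal.ofReal_mul (by norm_num),
      ← ENNReal.ofReal_add (by positivity) (by positivity),
      ← ENNReal.ofReal_mul (by positivity),
      ← ENNReal.ofReal_add (by positivity) (by positivity)]
    exact ENNReal.ofReal_le_ofReal hM.le
  · rw [hκ, show (10000 : ℝ≥0∞) = ENNReal.ofReal 10000 by norm_num,
      ← ENNReal.ofReal_mul (by norm_num)]
    exact ENNReal.ofReal_le_ofReal (by linarith)
  · have h14 : (1 / 4 : ℝ≥0∞) = ENNReal.ofReal (1 / 4) := by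
      rw [ENNReal.ofReal_div_of_pos (by norm_num)]; norm_num
    rw [h14]
    exact ENNReal.ofReal_le_ofReal hc'
  · exact (ENNReal.ofReal_pos.2 hc).ne'
  · rw [hakap, ← ENNReal.ofReal_add (by linarith) hc.le, ← ENNReal.ofReal_one]
    congr 1; ring

end C93117G
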