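import Pool.Agent.Work.MP_c93117_an.G.Up

open scoped ENNReal
open Classical

namespace C93117G

universe u
variable {K : Type u} {p : K → K → ℝ≥0∞} {t : K}
variable {e : ℝ≥0∞}

/-- SLOW, inductive step. -/
lemma slow_aux (h1 : ∀ t, m p t ≤ 1 + e) (h2 : ∀ t s, p t s ≤ q p t s) (he : e ≤ 1 / 2)
    (t : K) {ρ x η : ℝ≥0∞} (hρ : 1 < ρ) (hρ' : ρ ≠ ⊤) (hx : x ≤ e)
    (hη : 3 * e ≤ η * (1 - ρ⁻¹)) (j : ℕ) :
    W2 p t (fun r₁ r₂ s => p r₁ s ≤ ρ ^ j * x * p t s ∧ ¬ p r₂ s ≤ ρ ^ 2 * p r₁ s)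
      ≤ (3 * e + j * η) * m p t := by
  have hxtop : x ≠ ⊤ := ne_top_of_le_ne_top (ne_top_of_le_ne_top (by norm_num) he) hx
  induction j with
  | zero =>
    refine le_trans (W2_mono (F := fun r₁ _ s => p r₁ s ≤ x * p t s) ?_) ?_
    · intro r₁ r₂ s h
      simpa using h.1
    · simpa using neg2 h1 h2 he t hx
  | succ j ih =>
    have hinc : W2 p t (fun r₁ r₂ s => p r₁ s ≤ ρ ^ (j + 1) * x * p t s ∧
          ¬ p r₂ s ≤ ρ ^ 2 * p r₁ s) ≤
        W2 p t (fun r₁ r₂ s => (p r₁ s ≤ ρ ^ j * x * p t s ∧ ¬ p r₂ s ≤ ρ ^ 2 * p r₁ s) ∨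
          (p r₁ s ≤ (ρ ^ (j + 1) * x) * p t s ∧ ρ * ((ρ ^ (j + 1) * x) * p t s) ≤ p r₂ s)) := by
      refine W2_mono ?_
      rintro r₁ r₂ s ⟨ha, hb⟩
      by_cases hc : p r₁ s ≤ ρ ^ j * x * p t s
      · exact Or.inl ⟨hc, hb⟩
      · refine Or.inr ⟨ha, ?_⟩
        push Not at hb hc
        calc ρ * ((ρ ^ (j + 1) * x) * p t s) = ρ ^ 2 * (ρ ^ j * x * p t s) := by ring
          _ ≤ ρ ^ 2 * p r₁ s := by gcongr
          _ ≤ p r₂ s := hb.le
    calc _ ≤ _ := hinc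
      _ ≤ _ := W2_or
      _ ≤ (3 * e + j * η) * m p t + η * m p t := by
          gcongr
          exact up' h1 h2 he t (ENNReal.mul_ne_top (ENNReal.pow_ne_top hρ') hxtop) hρ hρ' hη
      _ = (3 * e + (j + 1 : ℕ) * η) * m p t := by push_cast; ring

/-- W2 of an event of the last step. -/
lemma W2_last_le (h1 : ∀ t, m p t ≤ 1 + e) {β : ℝ≥0∞} {F : K → K → K → Prop}
    (hF : ∀ r, W p r (F r) ≤ β * m p r) (t : K) :
    W2 p t F ≤ β * (1 + e) * m p t := by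
  rw [W2_eq]
  calc ∑' r, p t r * W p r (F r) ≤ ∑' r, p t r * (β * m p r) :=
        ENNReal.tsum_le_tsum fun r => mul_le_mul_right (hF r) _
    _ = β * ∑' r, p t r * m p r := by
        rw [← ENNReal.tsum_mul_left]
        exact tsum_congr fun r => by ring
    _ ≤ β * ((1 + e) * m p t) := by gcongr; exact sum_pm_le h1 t
    _ = _ := by ring

/-- SLOW: the gain distribution function is almost constant on long multiplicative scales. -/
lemma slow (h1 : ∀ t, m p t ≤ 1 + e) (h2 : ∀ t s, p t s ≤ q p t s) (he : e ≤ 1 / 2)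
    {ρ x η β : ℝ≥0∞} (hρ : 1 < ρ) (hρ' : ρ ≠ ⊤) (hx : x ≤ e)
    (hη : 3 * e ≤ η * (1 - ρ⁻¹))
    (hβ : ∀ t, W p t (fun r s => p r s ≤ ρ ^ 2 * p t s) ≤ β * m p t) (j : ℕ) (t : K) :
    W p t (fun r s => p r s ≤ ρ ^ j * x * p t s) ≤ (β * (1 + e) + 3 * e + j * η) * m p t := by
  calc W p t (fun r s => p r s ≤ ρ ^ j * x * p t s)
      ≤ W2 p t (fun r₁ _ s => p r₁ s ≤ ρ ^ j * x * p t s) := W_le_W2 h1 h2 he _
    _ ≤ W2 p t (fun r₁ r₂ s => (p r₂ s ≤ ρ ^ 2 * p r₁ s) ∨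
          (p r₁ s ≤ ρ ^ j * x * p t s ∧ ¬ p r₂ s ≤ ρ ^ 2 * p r₁ s)) := by
        refine W2_mono fun r₁ r₂ s h => ?_
        by_cases hc : p r₂ s ≤ ρ ^ 2 * p r₁ s
        · exact Or.inl hc
        · exact Or.inr ⟨h, hc⟩
    _ ≤ _ := W2_or
    _ ≤ β * (1 + e) * m p t + (3 * e + j * η) * m p t := by
        gcongr
        · exact W2_last_le h1 (F := fun r₁ r₂ s => p r₂ s ≤ ρ ^ 2 * p r₁ s) hβ t
        · exact slow_aux h1 h2 he t hρ hρ' hx hη j
    _ = _ := by ring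

/-- If all `W t (G ≤ c i)` are at most `β m`, `c i` unbounded, then `m t ≤ β m t`. -/
lemma limit_le (h1 : ∀ t, m p t ≤ 1 + e) (h2 : ∀ t s, p t s ≤ q p t s) (he : e ≤ 1 / 2)
    (c : ℕ → ℝ≥0∞) (hc : Monotone c) (hc' : ∀ A : ℝ≥0∞, A ≠ ⊤ → ∃ i, A ≤ c i)
    (t : K) (b : ℝ≥0∞) (hb : ∀ i, W p t (fun r s => p r s ≤ c i * p t s) ≤ b) :
    m p t ≤ b := by
  have hptop : ∀ t s, p t s ≠ ⊤ := fun t s =>
    ne_top_of_le_ne_top (m_ne_top h1 he t) (ENNReal.le_tsum s)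
  -- the function of a pair
  have key : ∀ (F : Finset (K × K)),
      ∑ x ∈ F, (if p t x.2 ≠ 0 then p t x.1 * p x.1 x.2 else 0) ≤ b := by
    intro F
    -- choose i good for all pairs in F
    have hex : ∃ i, ∀ x ∈ F, p t x.2 ≠ 0 → p x.1 x.2 ≤ c i * p t x.2 := by
      have h3 : ∀ x : K × K, ∃ i, p t x.2 ≠ 0 → p x.1 x.2 ≤ c i * p t x.2 := by
        intro x
        by_cases h0 : p t x.2 = 0
        · exact ⟨0, fun h => absurd h0 h⟩
        · obtain ⟨i, hi⟩ := hc' (p x.1 x.2 / p t x.2) (ENNReal.div_ne_top (hptop _ _) h0)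
          refine ⟨i, fun _ => ?_⟩
          exact (ENNReal.div_le_iff h0 (hptop _ _)).1 hi
      choose f hf using h3
      refine ⟨F.sup f, fun x hx h0 => (hf x h0).trans ?_⟩
      gcongr
      exact hc (Finset.le_sup hx)
    obtain ⟨i, hi⟩ := hex
    calc ∑ x ∈ F, (if p t x.2 ≠ 0 then p t x.1 * p x.1 x.2 else 0)
        ≤ ∑ x ∈ F, (if p x.1 x.2 ≤ c i * p t x.2 then p t x.1 * p x.1 x.2 else 0) := by
          refine Finset.sum_le_sum fun x hx => ?_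
          by_cases h0 : p t x.2 = 0
          · simp [h0]
          · simp [h0, hi x hx h0]
      _ ≤ ∑' x : K × K, (if p x.1 x.2 ≤ c i * p t x.2 then p t x.1 * p x.1 x.2 else 0) :=
          ENNReal.sum_le_tsum F
      _ = W p t (fun r s => p r s ≤ c i * p t s) := by
          unfold W
          rw [ENNReal.tsum_prod']
          refine tsum_congr fun r => tsum_congr fun s => ?_
          split_ifs <;> rfl
      _ ≤ b := hb i
  have h4 : ∑' x : K × K, (if p t x.2 ≠ 0 then p t x.1 * p x.1 x.2 else 0) ≤ b := by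
    rw [ENNReal.tsum_eq_iSup_sum]
    exact iSup_le key
  refine le_trans ?_ h4
  rw [ENNReal.tsum_prod', ENNReal.tsum_comm]
  unfold m
  refine ENNReal.tsum_le_tsum fun s => ?_
  by_cases h0 : p t s = 0
  · simp [h0]
  · simp only [ne_eq, h0, not_false_eq_true, if_true]
    exact h2 t s

end C93117G
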