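import Pool.Agent.Work.MP_c93117_an.G.Basic

open scoped ENNReal
open Classical

namespace C93117G

universe u
variable {K : Type u} {p : K → K → ℝ≥0∞} {t : K}
variable {e : ℝ≥0∞}

/-- UP: large gains do not accumulate. -/
lemma up (h1 : ∀ t, m p t ≤ 1 + e) (h2 : ∀ t s, p t s ≤ q p t s) (he : e ≤ 1 / 2)
    (t : K) {Y H : ℝ≥0∞} (hY : Y ≠ ⊤) (hH : 1 < H) (hH' : H ≠ ⊤) :
    W2 p t (fun r₁ r₂ s => p r₁ s ≤ Y * p t s ∧ H * (Y * p t s) ≤ p r₂ s) * (1 - H⁻¹)
      ≤ 3 * e * m p t := by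
  have hptop : ∀ t s, p t s ≠ ⊤ := fun t s =>
    ne_top_of_le_ne_top (m_ne_top h1 he t) (ENNReal.le_tsum s)
  have hetop : e ≠ ⊤ := ne_top_of_le_ne_top (by norm_num) he
  set B : K → ℝ≥0∞ := fun s => Y * p t s with hB
  have hBtop : ∀ s, B s ≠ ⊤ := fun s => ENNReal.mul_ne_top hY (hptop t s)
  set Φ : K → ℝ≥0∞ := fun r => ∑' s, (p r s - B s) with hΦ
  have hΦle : ∀ r, Φ r ≤ 1 + e := fun r =>
    (ENNReal.tsum_le_tsum fun s => tsub_le_self).trans (h1 r)
  set J : K → K → ℝ≥0∞ := fun r s => ∑' r', p r r' * (p r' s - B s) with hJ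
  set J1 : K → K → ℝ≥0∞ := fun r s => if p r s ≤ B s then J r s else 0 with hJ1
  have hpt : ∀ r s, J1 r s + (p r s - B s) ≤ J r s + e * p r s := by
    intro r s
    by_cases hc : p r s ≤ B s
    · simp [hJ1, hc, tsub_eq_zero_of_le hc]
    · simp only [hJ1, hc, if_false, zero_add]
      rw [tsub_le_iff_right]
      calc p r s ≤ q p r s := h2 r s
        _ ≤ ∑' r', (p r r' * (p r' s - B s) + p r r' * B s) := by
            unfold q
            refine ENNReal.tsum_le_tsum fun r' => ?_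
            rw [← mul_add]
            exact mul_le_mul_right le_tsub_add _
        _ = J r s + m p r * B s := by
            rw [ENNReal.tsum_add, ENNReal.tsum_mul_right]; rfl
        _ ≤ J r s + (1 + e) * B s := by gcongr; exact h1 r
        _ = J r s + e * B s + B s := by ring
        _ ≤ J r s + e * p r s + B s := by gcongr; exact le_of_not_ge hc
  set A1 : ℝ≥0∞ := ∑' r, p t r * ∑' s, J1 r s with hA1
  set U1 : ℝ≥0∞ := ∑' r, p t r * Φ r with hU1
  set U2 : ℝ≥0∞ := ∑' r, p t r * ∑' s, J r s with hU2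
  have hsum : A1 + U1 ≤ U2 + e * ∑' r, p t r * m p r := by
    rw [hA1, hU1, hU2, ← ENNReal.tsum_add, ← ENNReal.tsum_mul_left, ← ENNReal.tsum_add]
    refine ENNReal.tsum_le_tsum fun r => ?_
    rw [← mul_add]
    calc p t r * (∑' s, J1 r s + Φ r) = p t r * ∑' s, (J1 r s + (p r s - B s)) := by
          rw [hΦ, ← ENNReal.tsum_add]
      _ ≤ p t r * ∑' s, (J r s + e * p r s) :=
          mul_le_mul_right (ENNReal.tsum_le_tsum fun s => hpt r s) _
      _ = p t r * ∑' s, J r s + e * (p t r * m p r) := by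
          rw [ENNReal.tsum_add, ENNReal.tsum_mul_left, mul_add]
          unfold m; ring
  have hU2le : U2 ≤ U1 + (1 + e) * (e * m p t) := by
    have h3 : U2 = ∑' r', q p t r' * Φ r' := by
      have h4 : ∀ r, ∑' s, J r s = ∑' r', p r r' * Φ r' := by
        intro r
        rw [hJ, ENNReal.tsum_comm]
        exact tsum_congr fun r' => ENNReal.tsum_mul_left
      rw [hU2]
      simp_rw [h4, ← ENNReal.tsum_mul_left]
      rw [ENNReal.tsum_comm]
      refine tsum_congr fun r' => ?_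
      unfold q
      rw [← ENNReal.tsum_mul_right]
      exact tsum_congr fun r => by ring
    rw [h3]
    calc ∑' r', q p t r' * Φ r' ≤ ∑' r', (p t r' * Φ r' + (q p t r' - p t r') * (1 + e)) := by
          refine ENNReal.tsum_le_tsum fun r' => ?_
          calc q p t r' * Φ r' = (p t r' + (q p t r' - p t r')) * Φ r' := by
                rw [add_tsub_cancel_of_le (h2 t r')]
            _ = p t r' * Φ r' + (q p t r' - p t r') * Φ r' := by ring
            _ ≤ _ := by gcongr; exact hΦle r'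
      _ = U1 + (∑' r', (q p t r' - p t r')) * (1 + e) := by
          rw [ENNReal.tsum_add, ENNReal.tsum_mul_right]
      _ ≤ U1 + (e * m p t) * (1 + e) := by gcongr; exact excess_le h1 h2 he t
      _ = _ := by ring
  have hU1top : U1 ≠ ⊤ := by
    refine ne_top_of_le_ne_top (b := (m p t) * (1 + e)) ?_ ?_
    · exact ENNReal.mul_ne_top (m_ne_top h1 he t) (by simp [hetop])
    · rw [hU1]; unfold m
      rw [← ENNReal.tsum_mul_right]
      exact ENNReal.tsum_le_tsum fun r => mul_le_mul_right (hΦle r) _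
  have hA1le : A1 ≤ 3 * e * m p t := by
    have h5 : A1 + U1 ≤ (3 * e * m p t) + U1 := by
      calc A1 + U1 ≤ U2 + e * ∑' r, p t r * m p r := hsum
        _ ≤ U1 + (1 + e) * (e * m p t) + e * ((1 + e) * m p t) := by
            gcongr; exact sum_pm_le h1 t
        _ = U1 + (2 + 2 * e) * (e * m p t) := by ring
        _ ≤ U1 + 3 * (e * m p t) := by
            gcongr
            calc (2 : ℝ≥0∞) + 2 * e ≤ 2 + 2 * (1 / 2) := by gcongr
              _ = 3 := by
                rw [one_div, ENNReal.mul_inv_cancel (by norm_num) (by norm_num)]; norm_num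
        _ = (3 * e * m p t) + U1 := by ring
    exact (ENNReal.add_le_add_iff_right hU1top).1 h5
  refine le_trans ?_ hA1le
  rw [W2_eq, ← ENNReal.tsum_mul_right, hA1]
  refine ENNReal.tsum_le_tsum fun r => ?_
  rw [mul_assoc]
  refine mul_le_mul_right ?_ _
  unfold W
  rw [ENNReal.tsum_comm, ← ENNReal.tsum_mul_right]
  refine ENNReal.tsum_le_tsum fun s => ?_
  by_cases hc : p r s ≤ B s
  · simp only [hJ1, hc, if_true, hJ]
    rw [← ENNReal.tsum_mul_right]
    refine ENNReal.tsum_le_tsum fun r' => ?_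
    by_cases hc2 : H * (Y * p t s) ≤ p r' s
    · have hc' : p r s ≤ Y * p t s := hc
      simp only [hc', hc2, and_self, if_true]
      rw [mul_assoc]
      refine mul_le_mul_right ?_ _
      have hBle : B s ≤ p r' s * H⁻¹ := by
        have hH0 : H ≠ 0 := (zero_lt_one.trans hH).ne'
        calc B s = (H * B s) * H⁻¹ := by
              rw [mul_comm H, mul_assoc, ENNReal.mul_inv_cancel hH0 hH', mul_one]
          _ ≤ p r' s * H⁻¹ := by gcongr
      rw [ENNReal.mul_sub (fun _ _ => hptop r' s), mul_one]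
      exact tsub_le_tsub_left hBle _
    · simp [hc2]
  · have hc' : ¬ p r s ≤ Y * p t s := hc
    simp [hJ1, hc']

/-- NEG: small gains are rare. -/
lemma neg (h1 : ∀ t, m p t ≤ 1 + e) (t : K) (x : ℝ≥0∞) :
    W p t (fun r s => p r s ≤ x * p t s) ≤ x * (1 + e) * m p t := by
  rw [W_eq]
  refine (ENNReal.tsum_le_tsum (g := fun r => p t r * (x * m p t))
    fun r => mul_le_mul_right ?_ _).trans ?_
  · unfold m
    rw [← ENNReal.tsum_mul_left]
    refine ENNReal.tsum_le_tsum fun s => ?_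
    split_ifs with h
    · exact h
    · exact zero_le
  · rw [ENNReal.tsum_mul_right]
    calc (∑' r, p t r) * (x * m p t) ≤ (1 + e) * (x * m p t) := by gcongr; exact h1 t
      _ = x * (1 + e) * m p t := by ring

lemma neg2 (h1 : ∀ t, m p t ≤ 1 + e) (h2 : ∀ t s, p t s ≤ q p t s) (he : e ≤ 1 / 2)
    (t : K) {x : ℝ≥0∞} (hx : x ≤ e) :
    W2 p t (fun r₁ _ s => p r₁ s ≤ x * p t s) ≤ 3 * e * m p t := by
  calc W2 p t (fun r₁ _ s => p r₁ s ≤ x * p t s)
      ≤ W p t (fun r s => p r s ≤ x * p t s) + e * (1 + e) * m p t := W2_le_W h1 h2 he _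
    _ ≤ x * (1 + e) * m p t + e * (1 + e) * m p t := by gcongr; exact neg h1 t x
    _ ≤ e * (1 + e) * m p t + e * (1 + e) * m p t := by gcongr
    _ = (2 + 2 * e) * (e * m p t) := by ring
    _ ≤ 3 * (e * m p t) := by
        gcongr
        calc (2 : ℝ≥0∞) + 2 * e ≤ 2 + 2 * (1 / 2) := by gcongr
          _ = 3 := by
            rw [one_div, ENNReal.mul_inv_cancel (by norm_num) (by norm_num)]; norm_num
    _ = _ := by ring

/-- UP in divided form. -/
lemma up' (h1 : ∀ t, m p t ≤ 1 + e) (h2 : ∀ t s, p t s ≤ q p t s) (he : e ≤ 1 / 2)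
    (t : K) {Y H η : ℝ≥0∞} (hY : Y ≠ ⊤) (hH : 1 < H) (hH' : H ≠ ⊤)
    (hη : 3 * e ≤ η * (1 - H⁻¹)) :
    W2 p t (fun r₁ r₂ s => p r₁ s ≤ Y * p t s ∧ H * (Y * p t s) ≤ p r₂ s) ≤ η * m p t := by
  have h := up h1 h2 he t hY hH hH'
  have h0 : (1 - H⁻¹ : ℝ≥0∞) ≠ 0 := by
    rw [Ne, tsub_eq_zero_iff_le, not_le]
    exact ENNReal.inv_lt_one.2 hH
  have h0' : (1 - H⁻¹ : ℝ≥0∞) ≠ ⊤ := ne_top_of_le_ne_top (by norm_num) tsub_le_self
  refine (ENNReal.mul_le_mul_iff_left h0 h0').1 ?_
  calc _ ≤ 3 * e * m p t := h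
    _ ≤ η * (1 - H⁻¹) * m p t := by gcongr
    _ = η * m p t * (1 - H⁻¹) := by ring

end C93117G
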